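import Mathlib
import Pool.Agent.Y35.NC.Fin

/-!
# The Chern character of idempotent matrices over group rings is detected on cyclic subgroups

If the assembly map of the Farrell-Jones conjecture is surjective, then `K₀(R[G])` comes from the
group rings `R[V]` of the virtually cyclic subgroups `V` of `G` and their lower K-groups. We prove,
for every ring `R` and every group `G`, that the Chern character on `K₀(R[G])` (and, with `G × ℤ^r`
in place of `G`, on the negative K-groups of `R[G]`) is detected on cyclic subgroups: a cyclic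
cocycle of even degree `2 n ≥ 2` on `R[G]`, given by a cycle `(Ω, δ, T)` in the sense of Connes, which
vanishes on `R[C]` for all cyclic subgroups `C` satisfies: `(2n choose n) T (e (δ e) ^ (2 n))` is
divisible by all natural numbers `N ≥ 1`, for all idempotent matrices `e` over `R[G]`; it is zero if
`R` is commutative and the values of the cycle on group elements lie in a finitely generated module
over a finitely generated subring of `R`.

The cocycle need only vanish on the tuples `c₀ g ^ i₀, …, c_m g ^ i_m` with exponents `i_j ≥ 0` which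
are not all zero.
-/

set_option autoImplicit false

namespace Pool.Agent.Results.MP_b6f35e_al.CyclicDetection

/-- `(Ω, δ, T)` is a cycle of dimension `N` with values in the `k`-module `M`: `Ω` is a graded
`k`-algebra with homogeneous components `𝒜 i`, `δ` is a differential of degree one, and `T` is a
closed graded trace which vanishes outside degree `N`. -/
structure IsCycle {k : Type} [CommRing k] {Ω : Type} [Ring Ω] [Algebra k Ω] {M : Type}
    [AddCommGroup M] [Module k M] (N : ℕ) (𝒜 : ℕ → Submodule k Ω) [GradedAlgebra 𝒜]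
    (δ : Ω →ₗ[k] Ω) (T : Ω →ₗ[k] M) : Prop where
  deg : ∀ i, ∀ x ∈ 𝒜 i, δ x ∈ 𝒜 (i + 1)
  sq : ∀ x, δ (δ x) = 0
  leibniz : ∀ i, ∀ x ∈ 𝒜 i, ∀ y, δ (x * y) = δ x * y + (-1) ^ i * (x * δ y)
  closed : ∀ x, T (δ x) = 0
  trace : ∀ i j, ∀ x ∈ 𝒜 i, ∀ y ∈ 𝒜 j, T (x * y) = T ((-1) ^ (i * j) * (y * x))
  dim : ∀ i, i ≠ N → ∀ x ∈ 𝒜 i, T x = 0

/-- The value `T (c₀ g₀ δ(c₁ g₁) ⋯ δ(c_m g_m))` of the cycle on multiples of group elements. -/
noncomputable def value {k : Type} [CommRing k] {Ω : Type} [Ring Ω] [Algebra k Ω] {M : Type}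
    [AddCommGroup M] [Module k M] (δ : Ω →ₗ[k] Ω) (T : Ω →ₗ[k] M) {R : Type} [Ring R] {G : Type}
    [Group G] (ρ : MonoidAlgebra R G →+* Ω) (a : G × R) (l : List (G × R)) : M :=
  T (ρ (MonoidAlgebra.single a.1 a.2) *
    (l.map fun b => δ (ρ (MonoidAlgebra.single b.1 b.2))).prod)

/-- The cocycle of degree `m` of the cycle vanishes on the multiples of powers `g ^ i`, `i ≥ 0`, of
one element `g`, with exponents which are not all zero; in particular, this is the case if it
vanishes on `R[C]` for every cyclic subgroup `C`. -/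
def VanishesOnCyclic {k : Type} [CommRing k] {Ω : Type} [Ring Ω] [Algebra k Ω] {M : Type}
    [AddCommGroup M] [Module k M] (δ : Ω →ₗ[k] Ω) (T : Ω →ₗ[k] M) {R : Type} [Ring R] {G : Type}
    [Group G] (ρ : MonoidAlgebra R G →+* Ω) (m : ℕ) : Prop :=
  ∀ (g : G) (a : ℕ × R) (l : List (ℕ × R)), l.length = m → a.1 + (l.map Prod.fst).sum ≠ 0 →
    value δ T ρ (g ^ a.1, a.2) (l.map fun b => (g ^ b.1, b.2)) = 0

/-- Let `G` be a group, `(Ω, δ, T)` a cycle of dimension `2 n ≥ 2` over a commutative ring `k`.

(1) If `ρ : R[G] → Ω` is a homomorphism into degree zero, `R` any ring, and the cocycle vanishes on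
cyclic subgroups (see `VanishesOnCyclic`), then `(2n choose n) T (e (δ e) ^ (2 n))` is divisible in
`M` by every `N ≠ 0`, for each idempotent matrix `e` over `R[G]`.

(2) If moreover `R = k`, `ρ` is `k`-linear, and the values of the cycle on group elements lie in the
module generated by a finite set `F` over the subring generated by a finite set `s`, then
`(2n choose n) T (e (δ e) ^ (2 n)) = 0`. -/
theorem result (G : Type) [Group G] (n : ℕ) (hn : 1 ≤ n) (d : Type) [Fintype d] [DecidableEq d]
    (k : Type) [CommRing k] (Ω : Type) [Ring Ω] [Algebra k Ω] (𝒜 : ℕ → Submodule k Ω)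
    [GradedAlgebra 𝒜] (M : Type) [AddCommGroup M] [Module k M] (δ : Ω →ₗ[k] Ω) (T : Ω →ₗ[k] M)
    (hT : IsCycle (2 * n) 𝒜 δ T) :
    (∀ (R : Type) [Ring R] (ρ : MonoidAlgebra R G →+* Ω), (∀ x, ρ x ∈ 𝒜 0) →
      VanishesOnCyclic δ T ρ (2 * n) →
      ∀ e : Matrix d d (MonoidAlgebra R G), e * e = e → ∀ N : ℕ, N ≠ 0 →
        ∃ y : M, ((2 * n).choose n) • T ((e.map ρ) * ((e.map ρ).map δ) ^ (2 * n)).trace =
          N • y) ∧
    (∀ ρ : MonoidAlgebra k G →ₐ[k] Ω, (∀ x, ρ x ∈ 𝒜 0) →
      VanishesOnCyclic δ T (ρ : MonoidAlgebra k G →+* Ω) (2 * n) →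
      ∀ (s : Finset k) (F : Finset M), (∀ (a : G) (l : List G),
        l.length = 2 * n → value δ T (ρ : MonoidAlgebra k G →+* Ω) (a, 1)
          (l.map fun b => (b, 1)) ∈ Submodule.span (Algebra.adjoin ℤ (s : Set k)) (F : Set M)) →
      ∀ e : Matrix d d (MonoidAlgebra k G), e * e = e →
        ((2 * n).choose n) • T ((e.map ρ) * ((e.map ρ).map δ) ^ (2 * n)).trace = 0) := by
  have hT' : Pool.Agent.H23R2.Ch.IsCycle (2 * n) 𝒜 δ T :=
    ⟨hT.deg, hT.sq, hT.leibniz, hT.closed, hT.trace, hT.dim⟩
  have hc : Nat.centralBinom n = (2 * n).choose n := rfl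
  refine ⟨?_, ?_⟩
  · intro R _ ρ hρ hcyc e he N hN
    rw [← hc]
    refine Pool.Agent.Y35.NC.all_rings hn hT' ρ hρ (fun g a l hl hne => ?_) e he N hN
    have h1 := hcyc g a l hl hne
    unfold value at h1
    rw [List.map_map] at h1
    exact h1
  · intro ρ hρ hcyc s F hval e he
    rw [← hc]
    refine Pool.Agent.Y35.NC.comm_rings hn hT' ρ hρ s F (fun a l hl => ?_)
      (fun g a l hl hne => ?_) e he
    · have h1 := hval a l hl
      unfold value at h1
      rw [List.map_map] at h1
      exact h1
    · have h1 := hcyc g (a, 1) (l.map fun b => (b, 1)) (by simpa using hl) (by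
        rw [List.map_map]
        have h2 : (l.map (Prod.fst ∘ fun b : ℕ => (b, (1 : k)))) = l := by
          conv_rhs => rw [← List.map_id l]
          rfl
        rw [h2]
        exact hne)
      unfold value at h1
      rw [List.map_map, List.map_map] at h1
      exact h1

end Pool.Agent.Results.MP_b6f35e_al.CyclicDetection
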