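import Pool.Agent.Y75.EK.GroupsFG

set_option autoImplicit false

namespace Pool.Agent.Results.MP_b6f35e_al.DefiniteDecomposition

open Pool.Agent.Y75.SV Pool.Agent.Y75.EK

/-- **Unique decomposition of definite hermitian forms over integral group rings.** Let `G` be any group
and let `φ` be a positive definite hermitian form on a finitely generated `ℤG`-module `M`.

1. `(M, φ)` is an orthogonal sum of finitely many forms induced from subgroups `K i` of `G`, from
   finitely generated `ℤ[K i]`-modules `L i` whose underlying lattice is indecomposable. In every such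
   decomposition the groups `K i` are finitely generated.
2. The decomposition is unique: an isomorphism `α` of `(M, φ)` with `(M', φ')` maps every `L i` onto a
   translate `g (L' j)`, and `K i = g (K' j) g⁻¹`. (For `α` and its inverse this gives a bijection.)
3. If `φ` is nonsingular, so is its restriction to `L i`, over `ℤ[K i]`.
4. If `M` is projective, then `L i` is projective over `ℤ[K i]`, and `K i` is finite if and only if `L i`
   has finite rank; if in addition the form is nonsingular or uniformly positive and `M` is generated by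
   vectors of norm at most `2`, then all `K i` are finite. -/
theorem result (G : Type) [Group G] (M : Type) [AddCommGroup M] [Module (MonoidAlgebra ℤ G) M]
    [Module.Finite (MonoidAlgebra ℤ G) M] (φ : HermForm G M) (hpos : φ.Pos) :
    (∃ (k : ℕ) (K : Fin k → Subgroup G) (L : Fin k → AddSubgroup M), Decomposes φ K L) ∧
    (∀ (k : ℕ) (K : Fin k → Subgroup G) (L : Fin k → AddSubgroup M), Decomposes φ K L →
      (∀ (M' : Type) [AddCommGroup M'] [Module (MonoidAlgebra ℤ G) M'] (φ' : HermForm G M')
        (k' : ℕ) (K' : Fin k' → Subgroup G) (L' : Fin k' → AddSubgroup M'), Decomposes φ' K' L' →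
        ∀ α : M ≃ₗ[MonoidAlgebra ℤ G] M', (∀ x y, φ'.val (α x) (α y) = φ.val x y) →
        ∀ i, ∃ (j : Fin k') (g : G), (L i).map α.toAddEquiv.toAddMonoidHom = shift g (L' j) ∧
          ∀ s, s ∈ K i ↔ g⁻¹ * s * g ∈ K' j) ∧
      (∀ i, (K i).FG) ∧
      (φ.Nonsingular → ∀ i, NonsingularOn φ (K i) (L i)) ∧
      (Module.Projective (MonoidAlgebra ℤ G) M →
        (∀ i, FGProj (K i) (L i)) ∧
        (∀ i, Finite (K i) ↔ (L i).FG) ∧
        (φ.Nonsingular ∨ φ.UniformlyPos → φ.shortSpan = ⊤ → ∀ i, Finite (K i)))) := by
  refine ⟨?_, fun k K L h => ⟨?_, h.fg_groups, fun hn i => h.nonsingularOn hpos hn i, ?_⟩⟩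
  · obtain ⟨k, K, L, h, _⟩ := exists_decomposition φ hpos
    exact ⟨k, K, L, h⟩
  · intro M' _ _ φ' k' K' L' h' α hα i
    have hpos' : φ'.Pos := by
      intro x hx
      have h1 : φ'.norm x = φ.norm (α.symm x) := by
        unfold HermForm.norm
        rw [← hα, α.apply_symm_apply]
      rw [h1]
      exact hpos _ (by simpa using hx)
    exact h.unique h' hpos hpos' α hα i
  · intro hproj
    refine ⟨fun i => h.fgProj hpos i, fun i => h.finite_iff hpos i,
      fun hn htop i => h.finite_of_short ?_ htop i⟩
    rcases hn with hn | hn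
    · exact φ.uniformlyPos hpos hn
    · exact hn

end Pool.Agent.Results.MP_b6f35e_al.DefiniteDecomposition
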