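import Pool.Agent.Y72.Kt.DetKt

/-!
# Ratios of determinants of `K₁(K[Γ])` for groups with torsion, `K` a field of characteristic zero

Let `Γ` be any linear group over any field (torsion is allowed), or a group all of whose finitely
generated subgroups `H` have the following property: for almost all primes `l` the `l`-th roots in
`H` are unique, and every `c` of infinite order in `H` is an `l`-th power in `H` for finitely many
primes `l` only.  Let `A` be an invertible matrix over `K[Γ]`, and let `ρ`, `ρ'` be representations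
of `Γ` of the same degree over a field `L` containing `K`, with matrix entries algebraic over `ℚ`
and with the same character values at all elements of finite order.  Then for every representation
`σ` of `Γ` over `L` the determinants of `A` in `ρ ⊗ σ` and `ρ' ⊗ σ` agree up to a factor which is
algebraic over `ℚ`.
-/

set_option autoImplicit false

namespace Pool.Agent.Results.MP_b6f35e_al.DeterminantRatios

open Pool.Agent.Y72.Kt

universe t u v w

theorem result {Γ : Type u} [Group Γ]
    (hΓ : (∃ (F : Type t) (_ : Field F) (N : ℕ) (φ : Γ →* GL (Fin N) F), Function.Injective φ) ∨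
      ∀ H : Subgroup Γ, H.FG →
        (∃ N : ℕ, ∀ l : ℕ, l.Prime → N < l → ∀ x ∈ H, ∀ y ∈ H, x ^ l = y ^ l → x = y) ∧
        ∀ c ∈ H, (∀ m : ℕ, 0 < m → c ^ m ≠ 1) → {l : ℕ | l.Prime ∧ ∃ x ∈ H, x ^ l = c}.Finite)
    {K : Type v} [Field K] [CharZero K] {n : ℕ}
    (A : (Matrix (Fin n) (Fin n) (MonoidAlgebra K Γ))ˣ)
    {L : Type w} [Field L] [CharZero L] (ι : K →+* L) (d e : ℕ)
    (ρ ρ' : Γ →* GL (Fin d) L) (σ : Γ →* GL (Fin e) L)
    (hρ : ∀ g i j, IsAlgebraic ℚ ((ρ g).val i j))
    (hρ' : ∀ g i j, IsAlgebraic ℚ ((ρ' g).val i j))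
    (htr : ∀ g : Γ, ∀ m : ℕ, 0 < m → g ^ m = 1 → (ρ g).val.trace = (ρ' g).val.trace) :
    (Matrix.of fun x y : Fin n × Fin d × Fin e => (A.val x.1 y.1).coeff.sum fun g a =>
        ι a * ((ρ' g).val x.2.1 y.2.1 * (σ g).val x.2.2 y.2.2)).det ≠ 0 ∧
      ∃ α : L, α ≠ 0 ∧ IsAlgebraic ℚ α ∧
        (Matrix.of fun x y : Fin n × Fin d × Fin e => (A.val x.1 y.1).coeff.sum fun g a =>
          ι a * ((ρ g).val x.2.1 y.2.1 * (σ g).val x.2.2 y.2.2)).det =
        α * (Matrix.of fun x y : Fin n × Fin d × Fin e => (A.val x.1 y.1).coeff.sum fun g a =>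
          ι a * ((ρ' g).val x.2.1 y.2.1 * (σ g).val x.2.2 y.2.2)).det := by
  refine det_kt ?_ A L ι d e ρ ρ' σ hρ hρ' ?_
  · intro S
    have hS : (Subgroup.closure (S : Set Γ)).FG := ⟨S, rfl⟩
    rcases hΓ with ⟨F, _, N, φ, hφ⟩ | h
    · haveI : Group.FG (Subgroup.closure (S : Set Γ)) := (Group.fg_iff_subgroup_fg _).2 hS
      exact rtt_linear (φ.comp (Subgroup.closure (S : Set Γ)).subtype)
        (hφ.comp (Subgroup.closure (S : Set Γ)).subtype_injective)
    · obtain ⟨⟨N, hN⟩, h2⟩ := h _ hS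
      refine ⟨⟨N, fun l hl hNl x y hxy => ?_⟩, fun c hc => ?_⟩
      · apply Subtype.ext
        exact hN l hl hNl x.1 x.2 y.1 y.2 (by simpa using congrArg Subtype.val hxy)
      · refine (h2 c.1 c.2 ?_).subset ?_
        · intro m hm h0
          apply hc
          rw [isOfFinOrder_iff_pow_eq_one]
          exact ⟨m, hm, Subtype.ext (by simpa using h0)⟩
        · rintro l ⟨hl, x, hx⟩
          exact ⟨hl, x.1, x.2, by simpa using congrArg Subtype.val hx⟩
  · intro g hg
    rw [isOfFinOrder_iff_pow_eq_one] at hg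
    obtain ⟨m, hm, h⟩ := hg
    exact htr g m hm h

end Pool.Agent.Results.MP_b6f35e_al.DeterminantRatios
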