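import Pool.Agent.Y524S.Fin
import Pool.Agent.Y812.SS.Wr
import Pool.Agent.Y430.SS.Lf
import Pool.Agent.Y331.SP524.Limn
import Pool.Agent.Y473.SP.FV
import Pool.Agent.Y907.SP.Wrs
import Pool.Agent.Y997.SP.ENN

/-!
# Spinal groups on trees of unbounded valency are Farrell–Jones groups

`C` is any class of groups with the closure properties `Closed C`, all of which are known for the
class of the groups that satisfy the Farrell–Jones conjecture with coefficients and finite wreath
products.

`V 0, V 1, ...` are finite sets of letters. The words `x_0 x_1 ... x_m` with `x_i` in `V i` form a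
spherically homogeneous rooted tree `T`, and its subtrees `T_n` are given by `V n, V (n+1), ...`.
An automorphism of `T` is regarded as an automorphism of the tree of all words over `X` that does
nothing outside: `g (v x w) = g v x w` if `x` is not in `V |v|`.

Outline of the proof. Let `Γ_n` be the free product of the group of the finitary automorphisms of
`T_n` (which is locally finite) and `D n`. The sections give homomorphisms from `Γ_n` to the wreath
product of `Γ_(n+1)` with the finite symmetric group of `V n`. They are contracting: the number of
factors from `D` of an element goes down until the element is in one of the two factors, where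
the map to the tree automorphisms is injective. So the image of `Γ_n` is the directed colimit of
subgroups of iterated wreath products of the groups `Γ_m`.
-/

set_option autoImplicit false

namespace Pool.Agent.Results.MP_b6f35e_al.SpinalGroups

open Pool.Agent.Y462.SS Pool.Agent.Y524S

/-- Let `C` be a class of groups with the closure properties `Closed C`. Let `V 0, V 1, ...` be
finite sets, `d` a letter and `D n` groups of automorphisms of the `n`-th subtree which are in `C`,
fix the ray `d d d ...`, have their sections at `d` in `D (n + 1)` and their sections at all other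
letters of depth at most `k`. Let `G` be a group of automorphisms of the tree generated by a set `S`
such that for every `s` in `S` there is a level `N` at which every section of `s` is in `D N` or
finitary. Then `G` is in `C`. -/
theorem result (C : ∀ (G : Type) [Group G], Prop) (hC : Closed C)
    (X : Type) (V : ℕ → Set X) (hV : ∀ n, (V n).Finite) (d : X) (k : ℕ)
    (D : ℕ → Subgroup (Equiv.Perm (List X)))
    (_ : ∀ n, ∀ b ∈ D n, IsTree b)
    (hDV : ∀ n, ∀ b ∈ D n, ∀ (v : List X) (x : X) (w : List X), x ∉ V (n + v.length) →
      b (v ++ x :: w) = b v ++ x :: w)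
    (hDd : ∀ n, ∀ b ∈ D n, ∃ c ∈ D (n + 1), ∀ w, b (d :: w) = d :: c w)
    (hDo : ∀ n, ∀ b ∈ D n, ∀ x, x ≠ d → DepthAt b [x] k)
    (hDC : ∀ n, C (D n))
    (G : Type) [Group G] (f : G →* Equiv.Perm (List X)) (hf : Function.Injective f)
    (S : Set G) (hS : Subgroup.closure S = ⊤)
    (hT : ∀ s ∈ S, IsTree (f s))
    (hTV : ∀ s ∈ S, ∀ (v : List X) (x : X) (w : List X), x ∉ V v.length →
      f s (v ++ x :: w) = f s v ++ x :: w)
    (hN : ∀ s ∈ S, ∃ N : ℕ, ∀ v : List X, v.length = N →
      (∃ b ∈ D N, ∀ w, f s (v ++ w) = f s v ++ b w) ∨ ∃ j, DepthAt (f s) v j) : C G := by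
  exact spinal_closed Pool.Agent.Y907.SP.t_wrs (Pool.Agent.Y331.SPL.t_limn Pool.Agent.Y907.SP.t_wrs)
    Pool.Agent.Y473.SP.t_fv Pool.Agent.Y997.SP.t_enn Pool.Agent.Y430.SS.t_union C hC X V hV d k D hDV hDd hDo hDC G f hf S
    hS hT hTV hN

end Pool.Agent.Results.MP_b6f35e_al.SpinalGroups
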